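import Pool.Agent.Helper63.P705.BS.Goals

/-!
# MP_705522_gt, base data of a cell, packet BH: variation of `f0, f1, f2` over a cell
-/

namespace Pool.Agent.Helper94.BS

open MeasureTheory Set Filter Topology
open Pool.Agent.Helper53.PT (mo m3 f0 f1 f2 nu GFI mo_mono aLAW aCX aLIP)
open Pool.Agent.Helper63.P705

/-- `E |Y|³` is nondecreasing in `θ`. -/
theorem m3_mono {θ θ' : ℝ} (h0 : 0 < θ) (h : θ ≤ θ') (h1 : θ' < 1 / 2) : m3 θ ≤ m3 θ' := by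
  have key : ∀ t : ℝ, 0 < t → t < 1 / 2 → ∫ y, (y ^ 2) ^ (3 / 2 : ℝ) ∂(nu t) = m3 t := by
    intro t ht0 ht1
    obtain ⟨-, hpos, -, -, h3, -⟩ := aLAW ht0 ht1
    rw [← h3]
    refine integral_congr_ae ?_
    filter_upwards [hpos] with y hy
    have e1 : (y ^ 2) ^ (3 / 2 : ℝ) = y ^ (3 : ℝ) := by
      rw [← Real.rpow_natCast, ← Real.rpow_mul hy.le]
      norm_num
    rw [e1]
    exact_mod_cast Real.rpow_natCast y 3
  have hmain : ∫ y, (y ^ 2) ^ (3 / 2 : ℝ) ∂(nu θ) ≤ ∫ y, (y ^ 2) ^ (3 / 2 : ℝ) ∂(nu θ') :=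
    aCX h0 h h1 (fun s => s ^ (3 / 2 : ℝ)) (convexOn_rpow (by norm_num))
    (Real.continuous_rpow_const (by norm_num)).continuousOn
    ⟨1, 2, fun s hs => by
      show |s ^ (3 / 2 : ℝ)| ≤ 1 * (1 + s) ^ 2
      rw [abs_of_nonneg (Real.rpow_nonneg hs _), one_mul]
      have e1 : s ^ (3 / 2 : ℝ) ≤ (1 + s) ^ (3 / 2 : ℝ) :=
        Real.rpow_le_rpow hs (by linarith) (by norm_num)
      have e2 : (1 + s) ^ (3 / 2 : ℝ) ≤ (1 + s) ^ (2 : ℝ) :=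
        Real.rpow_le_rpow_of_exponent_le (by linarith) (by norm_num)
      have e3 : (1 + s) ^ (2 : ℝ) = (1 + s) ^ 2 := by
        exact_mod_cast Real.rpow_natCast (1 + s) 2
      exact e1.trans (e2.trans e3.le)⟩
  have e1 := key θ h0 (by linarith)
  have e2 := key θ' (by linarith) h1
  rw [e1, e2] at hmain
  exact hmain

/-- The eight inequalities for a pair. -/
theorem pair (hFI : GFI) {θ θ' : ℝ} (h0 : 1 / 4 ≤ θ) (h : θ ≤ θ') (h1 : θ' < 1 / 2) {x : ℝ}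
    (hx : 0 < x) {D2 D3 δ u : ℝ} (h2 : mo θ' 2 - mo θ 2 ≤ D2) (h3 : m3 θ' - m3 θ ≤ D3)
    (hδ : θ' - θ ≤ δ) (hu : θ' ≤ u) (hu' : u ≤ 1 / 2) :
    |f0 θ' x - f0 θ x| ≤ x ^ 2 / 24 * D2 ∧
    |f0 θ' x - f0 θ x| ≤ 0.146 * (x * √x) * D3 ∧
    |f0 θ' x - f0 θ x| ≤ 16 * δ ∧
    |f1 θ' x - f1 θ x| ≤ x / 6 * D2 ∧
    |f1 θ' x - f1 θ x| ≤ 0.48 * √x * D3 ∧
    √x * |f1 θ' x - f1 θ x| ≤ 16 * δ ∧
    |f2 θ' x - f2 θ x| ≤ D2 / 6 ∧
    x * |f2 θ' x - f2 θ x| ≤ 8.8 * √(mo u 2) * δ := by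
  obtain ⟨a1, a2, a3, a4, a5, -⟩ := aLIP (by linarith : 0 < θ) h h1 hx.le
  obtain ⟨b1, b2, b3⟩ := hFI θ θ' h0 h h1 x hx
  have hs : 0 ≤ √x := Real.sqrt_nonneg x
  refine ⟨a1.trans (mul_le_mul_of_nonneg_left h2 (by positivity)),
    a2.trans (mul_le_mul_of_nonneg_left h3 (by positivity)), b1.trans (by linarith),
    a3.trans (mul_le_mul_of_nonneg_left h2 (by positivity)),
    a4.trans (mul_le_mul_of_nonneg_left h3 (by positivity)), b2.trans (by linarith),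
    a5.trans (by linarith), b3.trans ?_⟩
  have hm : mo θ' 2 ≤ mo u 2 := mo_mono (by linarith) hu hu' 2
  have hsq : √(mo θ' 2) ≤ √(mo u 2) := Real.sqrt_le_sqrt hm
  have h4 : 0 ≤ θ' - θ := by linarith
  exact mul_le_mul (mul_le_mul_of_nonneg_left hsq (by norm_num)) hδ h4 (by positivity)

theorem bH : BH := by
  intro hN hFI a h ha0 ha1 ha2 dm2 dm3 e1 e2 e3 e4 θ hθ1 hθ2 x hx
  have hsub : ((a - h : ℕ) : ℝ) = (a : ℝ) - h := by
    rw [Nat.cast_sub ha1]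
  have haR : (2048 : ℝ) ≤ ((a - h : ℕ) : ℝ) := by exact_mod_cast ha0
  have hbR : (((a + h : ℕ)) : ℝ) < 4096 := by exact_mod_cast ha2
  have hadd : ((a + h : ℕ) : ℝ) = (a : ℝ) + h := by push_cast; ring
  have hh0 : (0 : ℝ) ≤ h := Nat.cast_nonneg h
  have hp : (0 : ℝ) < 2 ^ 40 := by positivity
  have h39 : (2⁻¹ : ℝ) ^ 39 = 2 / 2 ^ 40 := by norm_num
  -- numerical data
  have M1 := abs_le.1 (hN.mom (a + h) (by omega) ha2 2 le_rfl (by norm_num))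
  have M2 := abs_le.1 (hN.mom a (by omega) (by omega) 2 le_rfl (by norm_num))
  have M3 := abs_le.1 (hN.mom (a - h) ha0 (by omega) 2 le_rfl (by norm_num))
  have T1 := abs_le.1 (hN.m3 (a + h) (by omega) ha2)
  have T2 := abs_le.1 (hN.m3 a (by omega) (by omega))
  have T3 := abs_le.1 (hN.m3 (a - h) ha0 (by omega))
  rw [h39] at M1 M2 M3 T1 T2 T3
  have c1 : (momN (a + h) 2 : ℝ) + 4 ≤ momN a 2 + dm2 := by exact_mod_cast e1
  have c2 : (momN a 2 : ℝ) + 4 ≤ momN (a - h) 2 + dm2 := by exact_mod_cast e2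
  have c3 : (m3N (a + h) : ℝ) + 4 ≤ m3N a + dm3 := by exact_mod_cast e3
  have c4 : (m3N a : ℝ) + 4 ≤ m3N (a - h) + dm3 := by exact_mod_cast e4
  have d1 : mo ((a + h : ℕ) / 8192) 2 - mo (a / 8192) 2 ≤ dm2 / 2 ^ 40 := by
    have : ((momN (a + h) 2 : ℝ) + 4) / 2 ^ 40 ≤ ((momN a 2 : ℝ) + dm2) / 2 ^ 40 :=
      div_le_div_of_nonneg_right c1 hp.le
    rw [add_div, add_div] at this
    linarith [M1.1, M2.2]
  have d2 : mo (a / 8192) 2 - mo ((a - h : ℕ) / 8192) 2 ≤ dm2 / 2 ^ 40 := by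
    have : ((momN a 2 : ℝ) + 4) / 2 ^ 40 ≤ ((momN (a - h) 2 : ℝ) + dm2) / 2 ^ 40 :=
      div_le_div_of_nonneg_right c2 hp.le
    rw [add_div, add_div] at this
    linarith [M2.1, M3.2]
  have d3 : m3 ((a + h : ℕ) / 8192) - m3 (a / 8192) ≤ dm3 / 2 ^ 40 := by
    have : ((m3N (a + h) : ℝ) + 4) / 2 ^ 40 ≤ ((m3N a : ℝ) + dm3) / 2 ^ 40 :=
      div_le_div_of_nonneg_right c3 hp.le
    rw [add_div, add_div] at this
    linarith [T1.1, T2.2]
  have d4 : m3 (a / 8192) - m3 ((a - h : ℕ) / 8192) ≤ dm3 / 2 ^ 40 := by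
    have : ((m3N a : ℝ) + 4) / 2 ^ 40 ≤ ((m3N (a - h) : ℝ) + dm3) / 2 ^ 40 :=
      div_le_div_of_nonneg_right c4 hp.le
    rw [add_div, add_div] at this
    linarith [T2.1, T3.2]
  have hlow : (1 : ℝ) / 4 ≤ ((a - h : ℕ) : ℝ) / 8192 := by
    rw [div_le_div_iff₀ (by norm_num) (by norm_num)]
    linarith
  have hup : ((a + h : ℕ) : ℝ) / 8192 < 1 / 2 := by
    rw [div_lt_div_iff₀ (by norm_num) (by norm_num)]
    linarith
  have hmid1 : ((a - h : ℕ) : ℝ) / 8192 ≤ (a : ℝ) / 8192 := by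
    rw [hsub]
    exact div_le_div_of_nonneg_right (by linarith) (by norm_num)
  have hmid2 : (a : ℝ) / 8192 ≤ ((a + h : ℕ) : ℝ) / 8192 := by
    rw [hadd]
    exact div_le_div_of_nonneg_right (by linarith) (by norm_num)
  rcases le_total ((a : ℝ) / 8192) θ with hc | hc
  · have g1 := mo_mono (by linarith : 0 < θ) hθ2 hup.le 2
    have g2 := m3_mono (by linarith : 0 < θ) hθ2 hup
    have hδ : θ - a / 8192 ≤ (h : ℝ) / 8192 := by
      rw [hadd, add_div] at hθ2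
      linarith
    exact pair hFI (by linarith) hc (by linarith) hx (by linarith) (by linarith) hδ hθ2 hup.le
  · have g1 := mo_mono (by linarith : 0 < ((a - h : ℕ) : ℝ) / 8192) hθ1 (by linarith) 2
    have g2 := m3_mono (by linarith : 0 < ((a - h : ℕ) : ℝ) / 8192) hθ1 (by linarith)
    have hδ : (a : ℝ) / 8192 - θ ≤ (h : ℝ) / 8192 := by
      rw [hsub, sub_div] at hθ1
      linarith
    have h8 := pair hFI (by linarith) hc (by linarith) hx (D2 := dm2 / 2 ^ 40)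
      (D3 := dm3 / 2 ^ 40) (by linarith) (by linarith) hδ hmid2 hup.le
    rw [abs_sub_comm (f0 θ x), abs_sub_comm (f1 θ x), abs_sub_comm (f2 θ x)]
    exact h8

end Pool.Agent.Helper94.BS
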